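import Pool.Agent.Lib.MP_6bfe6b_gt.Functor

open CategoryTheory CategoryTheory.Limits TopologicalSpace Set Topology Filter Opposite

universe u

namespace Pool.Agent.MP_6bfe6b_gt

variable {I : Type u} [Preorder I] (S : Iᵒᵖ ⥤ CompHaus.{u})

/-- The bonding maps of an inverse spectrum. -/
abbrev bond {i j : I} (h : i ≤ j) : S.obj (op j) ⟶ S.obj (op i) := S.map (homOfLE h).op

/-- The limit projections of an inverse spectrum. -/
noncomputable abbrev proj (i : I) : limit S ⟶ S.obj (op i) := limit.π S (op i)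

theorem bond_proj {i j : I} (h : i ≤ j) (x : (limit S : CompHaus.{u})) :
    bond S h (proj S j x) = proj S i x :=
  ConcreteCategory.congr_hom (limit.w S (homOfLE h).op) x

theorem proj_sep (x y : (limit S : CompHaus.{u})) (h : ∀ i, proj S i x = proj S i y) : x = y :=
  Concrete.limit_ext S x y fun j => h j.unop

/-- Maps to the limit from compatible families. -/
theorem exists_lift (Z : CompHaus.{u}) (z : ∀ i : I, Z ⟶ S.obj (op i))
    (hz : ∀ i j (h : i ≤ j), z j ≫ bond S h = z i) :
    ∃ l : Z ⟶ limit S, ∀ i, l ≫ proj S i = z i := by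
  let c : Cone S :=
    { pt := Z
      π :=
        { app := fun j => z j.unop
          naturality := by
            intro j k f
            have h1 : k.unop ≤ j.unop := leOfHom f.unop
            have h2 : f = (homOfLE h1).op := Subsingleton.elim _ _
            rw [h2]
            exact (Category.id_comp _).trans (hz k.unop j.unop h1).symm } }
  exact ⟨limit.lift S c, fun i => limit.lift_π c (op i)⟩

section Directed

variable [IsDirected I (· ≤ ·)] [Nonempty I]

theorem exists_disjoint_image (C D : Set (limit S : CompHaus.{u})) (hC : IsCompact C)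
    (hD : IsCompact D) (hCD : Disjoint C D) : ∃ i, Disjoint (proj S i '' C) (proj S i '' D) := by
  by_contra hcon
  push Not at hcon
  let K : I → Set ((limit S).toTop × (limit S).toTop) :=
    fun i => (C ×ˢ D) ∩ {p | proj S i p.1 = proj S i p.2}
  have hcont : ∀ i, Continuous (proj S i) := fun i => (proj S i).hom.hom.continuous
  have hKcl : ∀ i, IsClosed (K i) := fun i =>
    (hC.isClosed.prod hD.isClosed).inter
      (isClosed_eq ((hcont i).comp continuous_fst) ((hcont i).comp continuous_snd))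
  have hmono : ∀ i j, i ≤ j → K j ⊆ K i := by
    rintro i j h p ⟨hp1, hp2⟩
    refine ⟨hp1, ?_⟩
    have h2 : proj S j p.1 = proj S j p.2 := hp2
    change proj S i p.1 = proj S i p.2
    rw [← bond_proj S h, ← bond_proj S h, h2]
  have hdir : Directed (· ⊇ ·) K := by
    intro i j
    obtain ⟨k, hik, hjk⟩ := exists_ge_ge i j
    exact ⟨k, hmono i k hik, hmono j k hjk⟩
  have hne : ∀ i, (K i).Nonempty := by
    intro i
    obtain ⟨_, ⟨x, hx, rfl⟩, ⟨y, hy, hxy⟩⟩ := Set.not_disjoint_iff.1 (hcon i)
    exact ⟨(x, y), ⟨hx, hy⟩, hxy.symm⟩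
  obtain ⟨p, hp⟩ := IsCompact.nonempty_iInter_of_directed_nonempty_isCompact_isClosed K hdir hne
    (fun i => (hKcl i).isCompact) hKcl
  rw [mem_iInter] at hp
  have heq : p.1 = p.2 := proj_sep S _ _ fun i => (hp i).2
  obtain ⟨i⟩ := (inferInstance : Nonempty I)
  exact Set.disjoint_left.1 hCD (hp i).1.1 (heq ▸ (hp i).1.2)

theorem disjoint_image_mono {C D : Set (limit S : CompHaus.{u})} {i j : I} (h : i ≤ j)
    (hi : Disjoint (proj S i '' C) (proj S i '' D)) :
    Disjoint (proj S j '' C) (proj S j '' D) := by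
  rw [Set.disjoint_left]
  rintro _ ⟨x, hx, rfl⟩ ⟨y, hy, hxy⟩
  refine Set.disjoint_left.1 hi ⟨x, hx, rfl⟩ ⟨y, hy, ?_⟩
  rw [← bond_proj S h y, ← bond_proj S h x, hxy]

theorem exists_ne {x y : (limit S : CompHaus.{u})} (h : x ≠ y) :
    ∃ i, ∀ j, i ≤ j → proj S j x ≠ proj S j y := by
  by_contra hcon
  push Not at hcon
  apply h
  apply proj_sep
  intro i
  obtain ⟨j, hij, hj⟩ := hcon i
  rw [← bond_proj S hij, ← bond_proj S hij, hj]

/-- The projections separate the points of `F (lim S)`. -/
theorem F_sep (a b : F.obj (limit S)) (h : ∀ i, F.map (proj S i) a = F.map (proj S i) b) :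
    a = b := by
  obtain ⟨⟨A, y1, y2⟩, rfl⟩ := Quotient.exists_rep a
  obtain ⟨⟨B, v1, v2⟩, rfl⟩ := Quotient.exists_rep b
  have hrel : ∀ i, Rel (gmap (proj S i).hom.hom (A, (y1, y2))) (gmap (proj S i).hom.hom (B, (v1, v2))) :=
    fun i => cl_eq.1 (h i)
  apply cl_eq.2
  have himg : ∀ i, proj S i '' (A : Set _) = proj S i '' (B : Set _) := fun i =>
    congrArg (fun K : NonemptyCompacts (S.obj (op i)) => (K : Set (S.obj (op i)))) (hrel i).1
  have hsub : ∀ C D : NonemptyCompacts (limit S : CompHaus.{u}),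
      (∀ i, proj S i '' (C : Set (limit S : CompHaus.{u})) =
        proj S i '' (D : Set (limit S : CompHaus.{u}))) →
      (C : Set (limit S : CompHaus.{u})) ⊆ (D : Set (limit S : CompHaus.{u})) := by
    intro C D hCD x hx
    by_contra hxD
    obtain ⟨i, hi⟩ := exists_disjoint_image S {x} (D : Set _) isCompact_singleton D.isCompact
      (Set.disjoint_singleton_left.2 hxD)
    have h1 : proj S i x ∈ proj S i '' (D : Set _) := by
      rw [← hCD i]
      exact ⟨x, hx, rfl⟩
    exact Set.disjoint_left.1 hi ⟨x, rfl, rfl⟩ h1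
  have hAB : A = B :=
    NonemptyCompacts.ext (Subset.antisymm (hsub A B himg) (hsub B A fun i => (himg i).symm))
  subst hAB
  refine ⟨rfl, ?_⟩
  by_cases hA : (A : Set (limit S : CompHaus.{u})).Subsingleton
  · exact Or.inr (Or.inl hA)
  by_cases hyv : (y1, y2) = (v1, v2)
  · exact Or.inl hyv
  -- eventually, the image of `A` is not a subsingleton
  have e1 : ∃ i, ∀ j, i ≤ j → ¬ (proj S j '' (A : Set _)).Subsingleton := by
    rw [Set.not_subsingleton_iff] at hA
    obtain ⟨x, hx, x', hx', hne⟩ := hA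
    obtain ⟨i, hi⟩ := exists_ne S hne
    exact ⟨i, fun j hj hs => hi j hj (hs ⟨x, hx, rfl⟩ ⟨x', hx', rfl⟩)⟩
  have e2 : ∃ i, ∀ j, i ≤ j → (proj S j y1, proj S j y2) ≠ (proj S j v1, proj S j v2) := by
    by_cases h1 : y1 = v1
    · have h2 : y2 ≠ v2 := fun h2 => hyv (by rw [h1, h2])
      obtain ⟨i, hi⟩ := exists_ne S h2
      exact ⟨i, fun j hj he => hi j hj (congrArg Prod.snd he)⟩
    · obtain ⟨i, hi⟩ := exists_ne S h1
      exact ⟨i, fun j hj he => hi j hj (congrArg Prod.fst he)⟩
  obtain ⟨i1, hi1⟩ := e1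
  obtain ⟨i2, hi2⟩ := e2
  obtain ⟨i0, h10, h20⟩ := exists_ge_ge i1 i2
  have key : ∀ j, i0 ≤ j → (IsPreconnected (proj S j '' (A : Set _)) ∧
      proj S j y1 = proj S j y2 ∧ proj S j v1 = proj S j v2) := by
    intro j hj
    rcases (hrel j).2 with hh | hh | hh
    · exact absurd hh (hi2 j (h20.trans hj))
    · exact absurd hh (hi1 j (h10.trans hj))
    · exact hh
  refine Or.inr (Or.inr ⟨?_, ?_, ?_⟩)
  · by_contra hpre
    change ¬ IsPreconnected (A : Set (limit S : CompHaus.{u})) at hpre
    rw [isPreconnected_iff_subset_of_fully_disjoint_closed A.isCompact.isClosed] at hpre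
    push Not at hpre
    obtain ⟨u, v, hu, hv, hsubuv, huv, h1, h2⟩ := hpre
    obtain ⟨i, hi⟩ := exists_disjoint_image S ((A : Set _) ∩ u) ((A : Set _) ∩ v)
      (A.isCompact.inter_right hu) (A.isCompact.inter_right hv)
      (huv.mono inter_subset_right inter_subset_right)
    obtain ⟨j, hij, h0j⟩ := exists_ge_ge i i0
    have hdj := disjoint_image_mono S hij hi
    have hpj := (key j h0j).1
    have hcont : Continuous (proj S j) := (proj S j).hom.hom.continuous
    have hcl1 : IsClosed (proj S j '' ((A : Set _) ∩ u)) :=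
      ((A.isCompact.inter_right hu).image hcont).isClosed
    have hcl2 : IsClosed (proj S j '' ((A : Set _) ∩ v)) :=
      ((A.isCompact.inter_right hv).image hcont).isClosed
    rw [isPreconnected_iff_subset_of_fully_disjoint_closed (A.isCompact.image hcont).isClosed]
      at hpj
    rcases hpj _ _ hcl1 hcl2 (by
      rintro _ ⟨x, hx, rfl⟩
      rcases hsubuv hx with hxu | hxv
      · exact Or.inl ⟨x, ⟨hx, hxu⟩, rfl⟩
      · exact Or.inr ⟨x, ⟨hx, hxv⟩, rfl⟩) hdj with hh | hh
    · apply h1
      intro x hx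
      by_contra hxu
      have hxv : x ∈ v := (hsubuv hx).resolve_left hxu
      exact Set.disjoint_left.1 hdj (hh ⟨x, hx, rfl⟩) ⟨x, ⟨hx, hxv⟩, rfl⟩
    · apply h2
      intro x hx
      by_contra hxv
      have hxu : x ∈ u := (hsubuv hx).resolve_right hxv
      exact Set.disjoint_left.1 hdj ⟨x, ⟨hx, hxu⟩, rfl⟩ (hh ⟨x, hx, rfl⟩)
  · change y1 = y2
    by_contra hne
    obtain ⟨i, hi⟩ := exists_ne S hne
    obtain ⟨j, hij, h0j⟩ := exists_ge_ge i i0
    exact hi j hij (key j h0j).2.1
  · change v1 = v2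
    by_contra hne
    obtain ⟨i, hi⟩ := exists_ne S hne
    obtain ⟨j, hij, h0j⟩ := exists_ge_ge i i0
    exact hi j hij (key j h0j).2.2

/-- Compatible families in `F (S i)` come from `F (lim S)`. -/
theorem F_surj (c : ∀ i : I, F.obj (S.obj (op i)))
    (hc : ∀ i j (h : i ≤ j), F.map (bond S h) (c j) = c i) :
    ∃ a : F.obj (limit S), ∀ i, F.map (proj S i) a = c i := by
  classical
  have hne : ∀ i, Nonempty (S.obj (op i)) := by
    intro i
    obtain ⟨g, -⟩ := Quotient.exists_rep (c i)
    exact ⟨g.2.1⟩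
  let dflt : ∀ i, S.obj (op i) := fun i => (hne i).some
  let P : CompHaus.{u} := CompHaus.of (∀ i : I, S.obj (op i))
  let p : ∀ i : I, P ⟶ S.obj (op i) := fun i => CompHausLike.ofHom _
    ⟨fun x : (∀ i : I, S.obj (op i)) => x i, continuous_apply i⟩
  let sfun : ∀ j : I, S.obj (op j) → (∀ i : I, S.obj (op i)) := fun j t k =>
    if h : k ≤ j then bond S h t else dflt k
  have hsfun : ∀ j, Continuous (sfun j) := by
    intro j
    refine continuous_pi fun k => ?_
    by_cases h : k ≤ j
    · simp only [sfun, h, dif_pos]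
      exact (bond S h).hom.hom.continuous
    · simp only [sfun, h, dif_neg, not_false_eq_true]
      exact continuous_const
  let s : ∀ j : I, S.obj (op j) ⟶ P := fun j => CompHausLike.ofHom _ ⟨sfun j, hsfun j⟩
  let Tset : I → Set (∀ i : I, S.obj (op i)) := fun j => {x | ∀ k (h : k ≤ j), bond S h (x j) = x k}
  have hTcl : ∀ j, IsClosed (Tset j) := by
    intro j
    have h1 : Tset j = ⋂ (k : I) (h : k ≤ j), {x | bond S h (x j) = x k} := by
      ext x
      simp [Tset]
    rw [h1]
    exact isClosed_iInter fun k => isClosed_iInter fun h =>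
      isClosed_eq ((bond S h).hom.hom.continuous.comp (continuous_apply j)) (continuous_apply k)
  let T : I → Compacts (∀ i : I, S.obj (op i)) := fun j => ⟨Tset j, (hTcl j).isCompact⟩
  have hmem : ∀ j' j (_ : j' ≤ j) (t : S.obj (op j)), sfun j t ∈ Tset j' := by
    intro j' j hj t k hk
    have h1 : sfun j t j' = bond S hj t := dif_pos hj
    have h2 : sfun j t k = bond S (hk.trans hj) t := dif_pos (hk.trans hj)
    rw [h1, h2]
    have h3 : bond S hj ≫ bond S hk = bond S (hk.trans hj) := by
      rw [← S.map_comp]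
      rfl
    exact ConcreteCategory.congr_hom h3 t
  let incl : ∀ j, CompHaus.of (T j) ⟶ P := fun j => CompHausLike.ofHom _
    ⟨Subtype.val, continuous_subtype_val⟩
  -- a cluster point of the net `F (s j) (c j)`
  obtain ⟨a, ha⟩ := exists_clusterPt_of_compactSpace
    (Filter.map (fun j => (F.map (s j) (c j) : F.obj P)) atTop)
  let lf : Filter (F.obj P) := 𝓝 a ⊓ Filter.map (fun j => (F.map (s j) (c j) : F.obj P)) atTop
  have hin : ∀ j', a ∈ range (F.map (incl j')) := by
    intro j'
    have hcl : IsClosed (range (F.map (incl j'))) :=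
      (isCompact_range (F.map (incl j')).hom.hom.continuous).isClosed
    refine hcl.mem_of_frequently_of_tendsto (b := lf) (f := id) ?_ ?_
    · have : NeBot lf := ha
      apply Eventually.frequently
      apply Filter.Eventually.filter_mono inf_le_right
      rw [eventually_map]
      filter_upwards [eventually_ge_atTop j'] with j hj
      let s' : S.obj (op j) ⟶ CompHaus.of (T j') := CompHausLike.ofHom _
        ⟨fun t => ⟨sfun j t, hmem j' j hj t⟩, (hsfun j).subtype_mk _⟩
      have h1 : s' ≫ incl j' = s j := rfl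
      refine ⟨F.map s' (c j), ?_⟩
      rw [← h1, F.map_comp]
      rfl
    · exact tendsto_id.mono_left inf_le_left
  have hproj : ∀ k, F.map (p k) a = c k := by
    intro k
    have hcont : Continuous (F.map (p k)) := (F.map (p k)).hom.hom.continuous
    have hcl : IsClosed {x : F.obj P | F.map (p k) x = c k} := isClosed_eq hcont continuous_const
    suffices hmemc : a ∈ {x : F.obj P | F.map (p k) x = c k} from hmemc
    refine hcl.mem_of_frequently_of_tendsto (b := lf) (f := id) ?_ ?_
    · have : NeBot lf := ha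
      apply Eventually.frequently
      apply Filter.Eventually.filter_mono inf_le_right
      rw [eventually_map]
      filter_upwards [eventually_ge_atTop k] with j hj
      have h1 : s j ≫ p k = bond S hj := by
        ext t
        exact dif_pos hj
      have h2 := hc k j hj
      rw [← h1, F.map_comp] at h2
      exact h2
    · exact tendsto_id.mono_left inf_le_left
  -- a representative supported in the set of compatible families
  have hrep : ∃ g : G P, cl g = a ∧ ((g.1 : Set P) ⊆ ⋂ j, Tset j) ∧ g.2.1 ∈ (⋂ j, Tset j) ∧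
      g.2.2 ∈ (⋂ j, Tset j) := by
    obtain ⟨g, rfl⟩ := Quotient.exists_rep a
    have hg : ∀ j, ∃ h : G (T j), Rel (gmap (incl j).hom.hom h) g := by
      intro j
      obtain ⟨b, hb⟩ := hin j
      obtain ⟨h, rfl⟩ := Quotient.exists_rep b
      exact ⟨h, cl_eq.1 hb⟩
    have hA : (g.1 : Set P) ⊆ ⋂ j, Tset j := by
      refine subset_iInter fun j => ?_
      obtain ⟨h, hh, -⟩ := hg j
      rw [← hh]
      rintro _ ⟨x, -, rfl⟩
      exact x.2
    by_cases hcase : (g.1 : Set P).Subsingleton ∨ (IsPreconnected (g.1 : Set P) ∧ g.2.1 = g.2.2)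
    · obtain ⟨x, hx⟩ := g.1.nonempty
      refine ⟨(g.1, (x, x)), ?_, hA, hA hx, hA hx⟩
      apply cl_eq.2
      refine ⟨rfl, ?_⟩
      rcases hcase with hcase | ⟨hc1, hc2⟩
      · exact Or.inr (Or.inl hcase)
      · exact Or.inr (Or.inr ⟨hc1, rfl, hc2⟩)
    · have hpair : ∀ j, g.2.1 ∈ Tset j ∧ g.2.2 ∈ Tset j := by
        intro j
        obtain ⟨h, hh, hh2⟩ := hg j
        rcases hh2 with h3 | h3 | ⟨h3, h4, h5⟩
        · rw [← h3]
          exact ⟨h.2.1.2, h.2.2.2⟩
        · rw [hh] at h3
          exact absurd (Or.inl h3) hcase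
        · rw [hh] at h3
          exact absurd (Or.inr ⟨h3, h5⟩) hcase
      exact ⟨g, rfl, hA, mem_iInter.2 fun j => (hpair j).1, mem_iInter.2 fun j => (hpair j).2⟩
  obtain ⟨g, hga, hg1, hg2, hg3⟩ := hrep
  let Z : Compacts (∀ i : I, S.obj (op i)) := ⟨⋂ j, Tset j, (isClosed_iInter hTcl).isCompact⟩
  let ι : CompHaus.of Z ⟶ P := CompHausLike.ofHom _ ⟨Subtype.val, continuous_subtype_val⟩
  have hrange : range ι = ⋂ j, Tset j := Subtype.range_val
  obtain ⟨h, hh⟩ := exists_gmap_eq ι.hom.hom g (by
    intro x hx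
    have := hg1 hx
    rw [← hrange] at this
    exact this) (by
    rw [← hrange] at hg2
    exact hg2) (by
    rw [← hrange] at hg3
    exact hg3)
  obtain ⟨l, hl⟩ := exists_lift S (CompHaus.of Z) (fun i => ι ≫ p i) (by
    intro i j hij
    ext x
    have hx : x.1 ∈ Tset j := mem_iInter.1 x.2 j
    exact hx i hij)
  refine ⟨F.map l (cl h), fun i => ?_⟩
  have h1 : F.map (proj S i) (F.map l (cl h)) = F.map (l ≫ proj S i) (cl h) := by
    rw [F.map_comp]
    rfl
  rw [h1, hl i, F.map_comp, ← hproj i, ← hga, ← hh]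
  rfl

end Directed

theorem F_continuous : IsContinuous (F.{u}) := by
  intro I _ _ _ S
  apply CompHausLike.isIso_of_bijective
  have hpost : ∀ (i : I) (a : F.obj (limit S)),
      proj (S ⋙ F) i (limit.post S F a) = F.map (proj S i) a := fun i a =>
    ConcreteCategory.congr_hom (limit.post_π S F (op i)) a
  constructor
  · intro a b hab
    apply F_sep S
    intro i
    rw [← hpost, ← hpost, hab]
  · intro y
    obtain ⟨a, ha⟩ := F_surj S (fun i => proj (S ⋙ F) i y) (fun i j h => bond_proj (S ⋙ F) h y)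
    refine ⟨a, proj_sep (S ⋙ F) _ _ fun i => ?_⟩
    rw [hpost]
    exact ha i

end Pool.Agent.MP_6bfe6b_gt
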