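import Pool.Agent.Lib.MP_6bfe6b_gt.Defs

open CategoryTheory

universe u

namespace Pool.Agent.MP_6bfe6b_gt

/-- A closed subset of a compactum is the fibre of some map to a cube. -/
theorem exists_map_to_cube_aux {Y : Type u} [TopologicalSpace Y] [CompactSpace Y] [T2Space Y]
    (C : Set Y) (hC : IsClosed C) :
    ∃ (J : Type u) (g : C(Y, J → unitInterval)), ∀ y : Y, g y = (fun _ => 0) ↔ y ∈ C := by
  classical
  let J := {φ : C(Y, unitInterval) // ∀ x ∈ C, φ x = 0}
  refine ⟨J, ⟨fun y φ => φ.1 y, continuous_pi fun φ => φ.1.continuous⟩, fun y => ⟨fun h => ?_, ?_⟩⟩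
  · by_contra hy
    obtain ⟨φ, hφ0, hφ1, hφ01⟩ := exists_continuous_zero_one_of_isClosed hC
      (isClosed_singleton (x := y)) (Set.disjoint_singleton_right.2 hy)
    let ψ : C(Y, unitInterval) :=
      ⟨fun y' => ⟨φ y', hφ01 y'⟩, φ.continuous.subtype_mk fun y' => hφ01 y'⟩
    have hψ : ∀ x ∈ C, ψ x = 0 := fun x hx => Subtype.ext (hφ0 hx)
    have h1 : ψ y = 0 := congrFun h ⟨ψ, hψ⟩
    have h2 : φ y = 1 := hφ1 rfl
    have h3 : φ y = 0 := congrArg Subtype.val h1
    exact zero_ne_one (h3.symm.trans h2)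
  · intro hy
    funext φ
    exact φ.2 y hy

/-- A closed embedding `f : X ⟶ Y` is the fibre of some map from `Y` to a cube. -/
theorem exists_map_to_cube {X Y : CompHaus.{u}} (f : X ⟶ Y) :
    ∃ (Q : CompHaus.{u}) (g : Y ⟶ Q) (z : Q), ∀ y : Y, g y = z ↔ y ∈ Set.range f := by
  obtain ⟨J, g, hg⟩ := exists_map_to_cube_aux (Y := Y) (Set.range f)
    (isCompact_range f.hom.hom.continuous).isClosed
  exact ⟨CompHaus.of (J → unitInterval), CompHausLike.ofHom _ g, (fun _ => 0 : J → unitInterval),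
    hg⟩

end Pool.Agent.MP_6bfe6b_gt
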