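import Mathlib

open CategoryTheory CategoryTheory.Limits

universe u

namespace Pool.Agent.MP_6bfe6b_gt

/-- `F` is monomorphic: `F f` is injective whenever `f` is. -/
def Monomorphic (F : CompHaus.{u} ⥤ CompHaus.{u}) : Prop :=
  ∀ ⦃X Y : CompHaus.{u}⦄ (f : X ⟶ Y), Function.Injective f → Function.Injective (F.map f)

/-- `F` is epimorphic: `F f` is surjective whenever `f` is. -/
def Epimorphic (F : CompHaus.{u} ⥤ CompHaus.{u}) : Prop :=
  ∀ ⦃X Y : CompHaus.{u}⦄ (f : X ⟶ Y), Function.Surjective f → Function.Surjective (F.map f)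

/-- `F` is continuous: for every inverse spectrum `S` of compacta (indexed by a nonempty directed
preordered set `I`), the map `F (lim S) ⟶ lim (F S)` induced by the images under `F` of the limit
projections is an isomorphism of `CompHaus`, that is, a homeomorphism. -/
def IsContinuous (F : CompHaus.{u} ⥤ CompHaus.{u}) : Prop :=
  ∀ (I : Type u) [Preorder I] [IsDirected I (· ≤ ·)] [Nonempty I] (S : Iᵒᵖ ⥤ CompHaus.{u}),
    IsIso (limit.post S F)

/-- `F` is a mec functor: monomorphic, epimorphic and continuous. -/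
structure Mec (F : CompHaus.{u} ⥤ CompHaus.{u}) : Prop where
  monomorphic : Monomorphic F
  epimorphic : Epimorphic F
  continuous : IsContinuous F

/-- The square with horizontal maps `f' : X' ⟶ Y'`, `f : X ⟶ Y` and vertical maps
`pX : X' ⟶ X`, `pY : Y' ⟶ Y` is commutative and bicommutative, i.e.
`f' (pX ⁻¹ x) = pY ⁻¹ (f x)` for every `x ∈ X`. -/
structure Bicommutative {X' Y' X Y : CompHaus.{u}} (f' : X' ⟶ Y') (f : X ⟶ Y) (pX : X' ⟶ X)
    (pY : Y' ⟶ Y) : Prop where
  comm : pX ≫ f = f' ≫ pY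
  image_fiber : ∀ x : X, f' '' (pX ⁻¹' {x}) = pY ⁻¹' {f x}

/-- `F` preserves preimages. -/
def PreservesPreimages (F : CompHaus.{u} ⥤ CompHaus.{u}) : Prop :=
  ∀ ⦃X' Y' X Y : CompHaus.{u}⦄ (f' : X' ⟶ Y') (f : X ⟶ Y) (pX : X' ⟶ X) (pY : Y' ⟶ Y),
    Function.Injective f' → Function.Injective f → Bicommutative f' f pX pY →
      Bicommutative (F.map f') (F.map f) (F.map pX) (F.map pY)

/-- `F` preserves finite preimages: as for preimages, with `X` finite. -/
def PreservesFinitePreimages (F : CompHaus.{u} ⥤ CompHaus.{u}) : Prop :=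
  ∀ ⦃X' Y' X Y : CompHaus.{u}⦄ (f' : X' ⟶ Y') (f : X ⟶ Y) (pX : X' ⟶ X) (pY : Y' ⟶ Y),
    Finite X → Function.Injective f' → Function.Injective f → Bicommutative f' f pX pY →
      Bicommutative (F.map f') (F.map f) (F.map pX) (F.map pY)

/-- `F` preserves 1-preimages: as for preimages, with `pX` bijective. -/
def PreservesOnePreimages (F : CompHaus.{u} ⥤ CompHaus.{u}) : Prop :=
  ∀ ⦃X' Y' X Y : CompHaus.{u}⦄ (f' : X' ⟶ Y') (f : X ⟶ Y) (pX : X' ⟶ X) (pY : Y' ⟶ Y),
    Function.Bijective pX → Function.Injective f' → Function.Injective f →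
      Bicommutative f' f pX pY → Bicommutative (F.map f') (F.map f) (F.map pX) (F.map pY)

/-- `F` preserves finite 1-preimages: as for preimages, with `X` finite and `pX` bijective. -/
def PreservesFiniteOnePreimages (F : CompHaus.{u} ⥤ CompHaus.{u}) : Prop :=
  ∀ ⦃X' Y' X Y : CompHaus.{u}⦄ (f' : X' ⟶ Y') (f : X ⟶ Y) (pX : X' ⟶ X) (pY : Y' ⟶ Y),
    Finite X → Function.Bijective pX → Function.Injective f' → Function.Injective f →
      Bicommutative f' f pX pY → Bicommutative (F.map f') (F.map f) (F.map pX) (F.map pY)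

end Pool.Agent.MP_6bfe6b_gt
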