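import Mathlib

open TopologicalSpace Set Topology

namespace Pool.Agent.MP_6bfe6b_gt

/-- The quotient of a compact Hausdorff space by a closed equivalence relation is Hausdorff. -/
theorem t2Space_quotient_of_isClosed {X : Type*} [TopologicalSpace X] [CompactSpace X] [T2Space X]
    (r : Setoid X) (hr : IsClosed {p : X × X | r p.1 p.2}) : T2Space (Quotient r) := by
  let π : X → Quotient r := Quotient.mk r
  have hsat : ∀ C : Set X, IsClosed C → IsClosed (π ⁻¹' (π '' C)) := by
    intro C hC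
    have h : π ⁻¹' (π '' C) = Prod.snd '' ({p : X × X | r p.1 p.2} ∩ Prod.fst ⁻¹' C) := by
      ext x
      constructor
      · rintro ⟨y, hy, hxy⟩
        exact ⟨(y, x), ⟨Quotient.exact hxy, hy⟩, rfl⟩
      · rintro ⟨⟨y, x'⟩, ⟨h1, h2⟩, rfl⟩
        exact ⟨y, h2, Quotient.sound h1⟩
    rw [h]
    exact ((hr.inter (hC.preimage continuous_fst)).isCompact.image continuous_snd).isClosed
  constructor
  intro a b hab
  obtain ⟨x, rfl⟩ := Quotient.exists_rep a
  obtain ⟨y, rfl⟩ := Quotient.exists_rep b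
  have hdisj : Disjoint (π ⁻¹' (π '' {x})) (π ⁻¹' (π '' {y})) := by
    rw [Set.disjoint_left]
    rintro z ⟨x', rfl, hx⟩ ⟨y', rfl, hy⟩
    exact hab (hx.trans hy.symm)
  obtain ⟨U, V, hU, hV, hxU, hyV, hUV⟩ := normal_separation (hsat _ isClosed_singleton)
    (hsat _ isClosed_singleton) hdisj
  have hopen : ∀ W : Set X, IsOpen W → IsOpen (π '' Wᶜ)ᶜ := by
    intro W hW
    have h : IsOpen (π ⁻¹' (π '' Wᶜ)ᶜ) := by
      rw [preimage_compl]
      exact (hsat _ hW.isClosed_compl).isOpen_compl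
    exact h
  refine ⟨(π '' Uᶜ)ᶜ, (π '' Vᶜ)ᶜ, hopen U hU, hopen V hV, ?_, ?_, ?_⟩
  · rintro ⟨z, hz, hzx⟩
    exact hz (hxU ⟨x, rfl, hzx.symm⟩)
  · rintro ⟨z, hz, hzy⟩
    exact hz (hyV ⟨y, rfl, hzy.symm⟩)
  · rw [Set.disjoint_left]
    intro c hc1 hc2
    obtain ⟨z, rfl⟩ := Quotient.exists_rep c
    have h1 : z ∈ U := by
      by_contra h
      exact hc1 ⟨z, h, rfl⟩
    have h2 : z ∈ V := by
      by_contra h
      exact hc2 ⟨z, h, rfl⟩
    exact Set.disjoint_left.1 hUV h1 h2

/-- In the Vietoris topology, the connected closed sets form a closed set. -/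
theorem isClosed_preconnected {X : Type*} [TopologicalSpace X] [CompactSpace X] [T2Space X] :
    IsClosed {K : NonemptyCompacts X | IsPreconnected (K : Set X)} := by
  rw [← isOpen_compl_iff, isOpen_iff_forall_mem_open]
  intro K hK
  have hK' : ¬ IsPreconnected (K : Set X) := hK
  rw [isPreconnected_iff_subset_of_fully_disjoint_closed K.isCompact.isClosed] at hK'
  push Not at hK'
  obtain ⟨u, v, hu, hv, hsub, huv, h1, h2⟩ := hK'
  obtain ⟨U, V, hU, hV, huU, hvV, hUV⟩ := normal_separation hu hv huv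
  refine ⟨{B : NonemptyCompacts X | (B : Set X) ⊆ U ∪ V} ∩
    ({B : NonemptyCompacts X | ((B : Set X) ∩ U).Nonempty} ∩
      {B : NonemptyCompacts X | ((B : Set X) ∩ V).Nonempty}), ?_, ?_, ?_⟩
  · rintro B ⟨hB1, hB2, hB3⟩ hB
    obtain ⟨x, -, hx1, hx2⟩ := hB U V hU hV hB1 hB2 hB3
    exact Set.disjoint_left.1 hUV hx1 hx2
  · exact (NonemptyCompacts.isOpen_subsets_of_isOpen (hU.union hV)).inter
      ((NonemptyCompacts.isOpen_inter_nonempty_of_isOpen hU).inter
        (NonemptyCompacts.isOpen_inter_nonempty_of_isOpen hV))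
  · refine ⟨fun x hx => ?_, ?_, ?_⟩
    · rcases hsub hx with h | h
      · exact Or.inl (huU h)
      · exact Or.inr (hvV h)
    · obtain ⟨x, hx, hxv⟩ := not_subset.1 h2
      exact ⟨x, hx, huU ((hsub hx).resolve_right hxv)⟩
    · obtain ⟨x, hx, hxu⟩ := not_subset.1 h1
      exact ⟨x, hx, hvV ((hsub hx).resolve_left hxu)⟩

theorem isClosed_subsingleton {X : Type*} [TopologicalSpace X] [T2Space X] :
    IsClosed {K : NonemptyCompacts X | (K : Set X).Subsingleton} := by
  have h : {K : NonemptyCompacts X | (K : Set X).Subsingleton} =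
      range ({·} : X → NonemptyCompacts X) := by
    ext K
    constructor
    · intro hK
      obtain ⟨x, hx⟩ := K.nonempty
      refine ⟨x, ?_⟩
      apply NonemptyCompacts.ext
      exact (hK.eq_singleton_of_mem hx).symm
    · rintro ⟨x, rfl⟩
      exact subsingleton_singleton
  rw [h]
  exact NonemptyCompacts.isClosedEmbedding_singleton.isClosed_range

end Pool.Agent.MP_6bfe6b_gt
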