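import Pool.Agent.Lib.MP_6bfe6b_gt.Defs
import Pool.Agent.Lib.MP_6bfe6b_gt.Topo

open CategoryTheory TopologicalSpace Set Topology

universe u

namespace Pool.Agent.MP_6bfe6b_gt

/-- The preimage-preserving functor `exp X × X × X` on spaces. -/
abbrev G (X : Type u) [TopologicalSpace X] : Type u := NonemptyCompacts X × (X × X)

/-- The action of a continuous map. -/
def gmap {X Y : Type u} [TopologicalSpace X] [TopologicalSpace Y] (f : C(X, Y)) (g : G X) : G Y :=
  (g.1.map f f.continuous, (f g.2.1, f g.2.2))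

/-- The relation on `exp X × X × X`. -/
def Rel {X : Type u} [TopologicalSpace X] (g h : G X) : Prop :=
  g.1 = h.1 ∧ (g.2 = h.2 ∨ (g.1 : Set X).Subsingleton ∨
    (IsPreconnected (g.1 : Set X) ∧ g.2.1 = g.2.2 ∧ h.2.1 = h.2.2))

theorem rel_equiv (X : Type u) [TopologicalSpace X] : Equivalence (Rel (X := X)) where
  refl g := ⟨rfl, Or.inl rfl⟩
  symm := by
    rintro ⟨A, y⟩ ⟨B, v⟩ ⟨h1, h2⟩
    dsimp only at h1 h2
    subst h1
    rcases h2 with h | h | ⟨h, h', h''⟩
    · exact ⟨rfl, Or.inl h.symm⟩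
    · exact ⟨rfl, Or.inr (Or.inl h)⟩
    · exact ⟨rfl, Or.inr (Or.inr ⟨h, h'', h'⟩)⟩
  trans := by
    rintro ⟨A, y⟩ ⟨B, v⟩ ⟨C, w⟩ ⟨h1, h2⟩ ⟨h3, h4⟩
    dsimp only at h1 h2 h3 h4
    subst h1
    subst h3
    refine ⟨rfl, ?_⟩
    dsimp only
    rcases h2 with rfl | h | ⟨h, h', h''⟩
    · exact h4
    · exact Or.inr (Or.inl h)
    · rcases h4 with rfl | k | ⟨k, k', k''⟩
      · exact Or.inr (Or.inr ⟨h, h', h''⟩)
      · exact Or.inr (Or.inl k)
      · exact Or.inr (Or.inr ⟨h, h', k''⟩)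

/-- The setoid. -/
def relSetoid (X : Type u) [TopologicalSpace X] : Setoid (G X) := ⟨Rel, rel_equiv X⟩

theorem isClosed_rel (X : Type u) [TopologicalSpace X] [CompactSpace X] [T2Space X] :
    IsClosed {p : G X × G X | relSetoid X p.1 p.2} := by
  have h : {p : G X × G X | relSetoid X p.1 p.2} = {p : G X × G X | p.1.1 = p.2.1} ∩
      ({p : G X × G X | p.1.2 = p.2.2} ∪
        ((fun p : G X × G X => p.1.1) ⁻¹' {K : NonemptyCompacts X | (K : Set X).Subsingleton} ∪
        ((fun p : G X × G X => p.1.1) ⁻¹' {K : NonemptyCompacts X | IsPreconnected (K : Set X)} ∩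
          ({p : G X × G X | p.1.2.1 = p.1.2.2} ∩ {p : G X × G X | p.2.2.1 = p.2.2.2})))) := rfl
  rw [h]
  have hc : Continuous (fun p : G X × G X => p.1.1) := continuous_fst.comp continuous_fst
  refine (isClosed_eq hc (continuous_fst.comp continuous_snd)).inter ?_
  refine (isClosed_eq (continuous_snd.comp continuous_fst)
    (continuous_snd.comp continuous_snd)).union ?_
  refine (isClosed_subsingleton.preimage hc).union ?_
  refine (isClosed_preconnected.preimage hc).inter ?_
  exact (isClosed_eq (by fun_prop) (by fun_prop)).inter (isClosed_eq (by fun_prop) (by fun_prop))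

theorem continuous_gmap {X Y : Type u} [TopologicalSpace X] [TopologicalSpace Y] (f : C(X, Y)) :
    Continuous (gmap f) := by
  have h := f.continuous.nonemptyCompacts_map
  exact (h.comp continuous_fst).prodMk (by fun_prop)

theorem gmap_rel {X Y : Type u} [TopologicalSpace X] [TopologicalSpace Y] (f : C(X, Y))
    {g h : G X} (hgh : Rel g h) : Rel (gmap f g) (gmap f h) := by
  obtain ⟨A, y⟩ := g
  obtain ⟨B, v⟩ := h
  obtain ⟨h1, h2⟩ := hgh
  dsimp only at h1 h2
  subst h1
  refine ⟨rfl, ?_⟩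
  rcases h2 with rfl | h | ⟨h, h', h''⟩
  · exact Or.inl rfl
  · exact Or.inr (Or.inl (h.image f))
  · exact Or.inr (Or.inr ⟨h.image f f.continuous.continuousOn, congrArg f h', congrArg f h''⟩)

instance (X : Type u) [TopologicalSpace X] [CompactSpace X] [T2Space X] :
    T2Space (Quotient (relSetoid X)) :=
  t2Space_quotient_of_isClosed _ (isClosed_rel X)

/-- The value of the functor on a compactum. -/
abbrev Fobj (X : Type u) [TopologicalSpace X] : Type u := Quotient (relSetoid X)

/-- The quotient map. -/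
abbrev cl {X : Type u} [TopologicalSpace X] (g : G X) : Fobj X := Quotient.mk (relSetoid X) g

theorem cl_eq {X : Type u} [TopologicalSpace X] {g h : G X} : cl g = cl h ↔ Rel g h :=
  Quotient.eq (r := relSetoid X)

/-- The value of the functor on a map. -/
def Fmap {X Y : Type u} [TopologicalSpace X] [TopologicalSpace Y] (f : C(X, Y)) :
    C(Fobj X, Fobj Y) where
  toFun := Quotient.map (sa := relSetoid X) (sb := relSetoid Y) (gmap f) fun _ _ h => gmap_rel f h
  continuous_toFun := (continuous_gmap f).quotient_map' _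

theorem Fmap_cl {X Y : Type u} [TopologicalSpace X] [TopologicalSpace Y] (f : C(X, Y)) (g : G X) :
    Fmap f (cl g) = cl (gmap f g) := rfl

/-- The functor `F` on compacta, `F X = (exp X × X × X) / ~`. -/
def F : CompHaus.{u} ⥤ CompHaus.{u} where
  obj X := CompHaus.of (Fobj X)
  map f := CompHausLike.ofHom _ (Fmap f.hom.hom)
  map_id X := by
    ext x
    obtain ⟨g, rfl⟩ := Quotient.exists_rep x
    have h : gmap (ContinuousMap.id X) g = g := by
      refine Prod.ext ?_ rfl
      exact NonemptyCompacts.map_id _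
    exact congrArg cl h
  map_comp {X Y Z} f f' := by
    ext x
    obtain ⟨g, rfl⟩ := Quotient.exists_rep x
    have h : gmap (f'.hom.hom.comp f.hom.hom) g = gmap f'.hom.hom (gmap f.hom.hom g) := by
      refine Prod.ext ?_ rfl
      exact NonemptyCompacts.map_comp f'.hom.hom f.hom.hom f'.hom.hom.continuous
        f.hom.hom.continuous g.1
    exact congrArg cl h

/-- If the data of `g` lie in the range of `f`, then `g` is in the range of `gmap f`. -/
theorem exists_gmap_eq {X Y : Type u} [TopologicalSpace X] [TopologicalSpace Y] [CompactSpace X]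
    [T2Space Y] (f : C(X, Y)) (g : G Y) (h1 : (g.1 : Set Y) ⊆ range f) (h2 : g.2.1 ∈ range f)
    (h3 : g.2.2 ∈ range f) : ∃ h : G X, gmap f h = g := by
  obtain ⟨y1, hy1⟩ := h2
  obtain ⟨y2, hy2⟩ := h3
  have hc : IsClosed (f ⁻¹' (g.1 : Set Y)) := g.1.isCompact.isClosed.preimage f.continuous
  have hne : (f ⁻¹' (g.1 : Set Y)).Nonempty := by
    obtain ⟨y, hy⟩ := g.1.nonempty
    obtain ⟨x, rfl⟩ := h1 hy
    exact ⟨x, hy⟩
  refine ⟨(⟨⟨f ⁻¹' (g.1 : Set Y), hc.isCompact⟩, hne⟩, (y1, y2)), ?_⟩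
  refine Prod.ext ?_ (Prod.ext hy1 hy2)
  apply NonemptyCompacts.ext
  exact image_preimage_eq_of_subset h1

theorem rel_of_gmap_rel {X Y : Type u} [TopologicalSpace X] [TopologicalSpace Y] [CompactSpace X]
    [T2Space Y] (f : C(X, Y)) (hf : Function.Injective f) {g h : G X}
    (hgh : Rel (gmap f g) (gmap f h)) : Rel g h := by
  obtain ⟨A, y1, y2⟩ := g
  obtain ⟨B, v1, v2⟩ := h
  obtain ⟨h1, h2⟩ := hgh
  have hAB : A = B := NonemptyCompacts.map_injective f.continuous hf h1
  subst hAB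
  have hemb : IsEmbedding f := (f.continuous.isClosedEmbedding hf).isEmbedding
  refine ⟨rfl, ?_⟩
  rcases h2 with h | h | ⟨h, h', h''⟩
  · refine Or.inl ?_
    have e1 : y1 = v1 := hf (congrArg Prod.fst h)
    have e2 : y2 = v2 := hf (congrArg Prod.snd h)
    subst e1
    subst e2
    rfl
  · refine Or.inr (Or.inl fun a ha b hb => hf (h ⟨a, ha, rfl⟩ ⟨b, hb, rfl⟩))
  · exact Or.inr (Or.inr ⟨hemb.isInducing.isPreconnected_image.1 h, hf h', hf h''⟩)

theorem F_monomorphic : Monomorphic (F.{u}) := by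
  intro X Y f hf a b hab
  obtain ⟨g, rfl⟩ := Quotient.exists_rep a
  obtain ⟨h, rfl⟩ := Quotient.exists_rep b
  exact cl_eq.2 (rel_of_gmap_rel f.hom.hom hf (cl_eq.1 hab))

theorem F_epimorphic : Epimorphic (F.{u}) := by
  intro X Y f hf b
  obtain ⟨g, rfl⟩ := Quotient.exists_rep b
  obtain ⟨h, rfl⟩ := exists_gmap_eq f.hom.hom g (fun y _ => hf y) (hf _) (hf _)
  exact ⟨cl h, rfl⟩

end Pool.Agent.MP_6bfe6b_gt
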