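import Pool.Agent.Lib.MP_6bfe6b_gt.Continuity

open CategoryTheory CategoryTheory.Limits TopologicalSpace Set Topology Filter Opposite

universe u

namespace Pool.Agent.MP_6bfe6b_gt

theorem subsingleton_of_preconnected_of_finite {X : Type*} [TopologicalSpace X] [T2Space X]
    {s : Set X} (h : _root_.IsPreconnected s) (hf : s.Finite) : s.Subsingleton := by
  by_contra hs
  exact (IsPreconnected.infinite_of_nontrivial h (Set.not_subsingleton_iff.1 hs)) hf

theorem F_finiteOnePreimages : PreservesFiniteOnePreimages (F.{u}) := by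
  intro X' Y' X Y f' f pX pY hfin hpX hf' hf hsq
  have hcomm : F.map pX ≫ F.map f = F.map f' ≫ F.map pY := by
    rw [← F.map_comp, ← F.map_comp, hsq.comm]
  have hcomm' : ∀ a, F.map f (F.map pX a) = F.map pY (F.map f' a) := fun a =>
    ConcreteCategory.congr_hom hcomm a
  refine ⟨hcomm, fun b => Subset.antisymm ?_ ?_⟩
  · rintro _ ⟨a, ha, rfl⟩
    rw [Set.mem_preimage, Set.mem_singleton_iff, ← hcomm', show F.map pX a = b from ha]
  · intro c hc
    have hc' : F.map pY c = F.map f b := hc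
    suffices hmem : c ∈ range (F.map f') by
      obtain ⟨a, rfl⟩ := hmem
      refine ⟨a, ?_, rfl⟩
      apply F_monomorphic f hf
      exact (hcomm' a).trans hc'
    obtain ⟨g, rfl⟩ := Quotient.exists_rep c
    obtain ⟨h, rfl⟩ := Quotient.exists_rep b
    have hrel : Rel (gmap pY.hom.hom g) (gmap f.hom.hom h) := cl_eq.1 hc'
    have himg : pY '' (g.1 : Set Y') = f '' (h.1 : Set X) :=
      congrArg (fun K : NonemptyCompacts Y => (K : Set Y)) hrel.1
    -- a point of `Y'` over `range f` is in `range f'`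
    have hover : ∀ y' : Y', pY y' ∈ range f → y' ∈ range f' := by
      rintro y' ⟨x, hx⟩
      have h2 : y' ∈ pY ⁻¹' {f x} := hx.symm
      rw [← hsq.image_fiber x] at h2
      obtain ⟨x', -, hx'⟩ := h2
      exact ⟨x', hx'⟩
    have hA : (g.1 : Set Y') ⊆ range f' := by
      intro y' hy'
      apply hover
      have h1 : pY y' ∈ f '' (h.1 : Set X) := himg ▸ mem_image_of_mem _ hy'
      exact image_subset_range _ _ h1
    -- over `range f`, `pY` is injective
    have hinj : ∀ y1 ∈ (g.1 : Set Y'), ∀ y2 ∈ (g.1 : Set Y'), pY y1 = pY y2 → y1 = y2 := by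
      intro y1 hy1 y2 hy2 hy
      obtain ⟨x1, rfl⟩ := hA hy1
      obtain ⟨x2, rfl⟩ := hA hy2
      have e1 : f (pX x1) = pY (f' x1) := ConcreteCategory.congr_hom hsq.comm x1
      have e2 : f (pX x2) = pY (f' x2) := ConcreteCategory.congr_hom hsq.comm x2
      have e3 : pX x1 = pX x2 := hf (by rw [e1, e2, hy])
      rw [hpX.1 e3]
    have hsubs : (pY '' (g.1 : Set Y')).Subsingleton → (g.1 : Set Y').Subsingleton := by
      intro hs y1 hy1 y2 hy2
      exact hinj y1 hy1 y2 hy2 (hs ⟨y1, hy1, rfl⟩ ⟨y2, hy2, rfl⟩)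
    have hfinish : (g.1 : Set Y').Subsingleton → cl g ∈ range (F.map f') := by
      intro hs
      obtain ⟨y, hy⟩ := g.1.nonempty
      obtain ⟨k, hk⟩ := exists_gmap_eq f'.hom.hom (g.1, (y, y)) hA (hA hy) (hA hy)
      refine ⟨cl k, ?_⟩
      have e : cl (gmap f'.hom.hom k) = cl g := by
        rw [hk]
        exact cl_eq.2 ⟨rfl, Or.inr (Or.inl hs)⟩
      exact e
    rcases hrel.2 with h1 | h1 | ⟨h1, -, -⟩
    · have e1 : pY g.2.1 = f h.2.1 := congrArg Prod.fst h1
      have e2 : pY g.2.2 = f h.2.2 := congrArg Prod.snd h1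
      obtain ⟨k, hk⟩ := exists_gmap_eq f'.hom.hom g hA (hover _ ⟨_, e1.symm⟩)
        (hover _ ⟨_, e2.symm⟩)
      exact ⟨cl k, congrArg cl hk⟩
    · exact hfinish (hsubs h1)
    · apply hfinish
      apply hsubs
      have hfi : (pY '' (g.1 : Set Y')).Finite := by
        rw [himg]
        exact (Set.toFinite _).image _
      exact subsingleton_of_preconnected_of_finite h1 hfi

theorem F_not_onePreimages : ¬ PreservesOnePreimages (F.{u}) := by
  intro hpres
  let J : Type u := ULift.{u} unitInterval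
  let x0 : J := ULift.up 0
  let X : CompHaus.{u} := CompHaus.of J
  let Y' : CompHaus.{u} := CompHaus.of (J ⊕ ULift.{u} Bool)
  let Y : CompHaus.{u} := CompHaus.of (J ⊕ PUnit.{u + 1})
  let f' : X ⟶ Y' := CompHausLike.ofHom _ ⟨Sum.inl, continuous_inl⟩
  let f : X ⟶ Y := CompHausLike.ofHom _ ⟨Sum.inl, continuous_inl⟩
  let pY : Y' ⟶ Y := CompHausLike.ofHom _
    ⟨Sum.map id fun _ => PUnit.unit, continuous_id.sumMap continuous_const⟩
  have hsq : Bicommutative f' f (𝟙 X) pY := by
    refine ⟨rfl, fun x => ?_⟩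
    ext y
    constructor
    · rintro ⟨z, rfl, rfl⟩
      rfl
    · intro hy
      rcases y with t | b
      · have h1 : t = x := Sum.inl_injective hy
        exact ⟨t, h1, rfl⟩
      · exact absurd hy (by intro h; cases h)
  have hne : Nonempty J := ⟨x0⟩
  let K : NonemptyCompacts J := ⊤
  let K' : NonemptyCompacts (J ⊕ ULift.{u} Bool) := K.map Sum.inl continuous_inl
  let yt : J ⊕ ULift.{u} Bool := Sum.inr (ULift.up true)
  let yf : J ⊕ ULift.{u} Bool := Sum.inr (ULift.up false)
  have h := (hpres f' f (𝟙 X) pY Function.bijective_id Sum.inl_injective Sum.inl_injective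
    hsq).image_fiber (cl (K, (x0, x0)))
  have hKpre : _root_.IsPreconnected (univ : Set J) := by
    have h1 : (ULift.up : unitInterval → J) '' univ = univ := by
      rw [image_univ]
      exact ULift.up_surjective.range_eq
    rw [← h1]
    exact isPreconnected_univ.image _ continuous_uliftUp.continuousOn
  have hmem : cl ((K', (yt, yf)) : G (J ⊕ ULift.{u} Bool)) ∈
      F.map pY ⁻¹' {F.map f (cl (K, (x0, x0)))} := by
    have hrel : Rel (gmap pY.hom.hom ((K', (yt, yf)) : G (J ⊕ ULift.{u} Bool)))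
        (gmap f.hom.hom ((K, (x0, x0)) : G J)) := by
      refine ⟨?_, Or.inr (Or.inr ⟨?_, rfl, rfl⟩)⟩
      · apply NonemptyCompacts.ext
        change pY '' (Sum.inl '' (univ : Set J)) = f '' (univ : Set J)
        rw [image_image]
        rfl
      · change _root_.IsPreconnected (pY '' (Sum.inl '' (univ : Set J)))
        exact (hKpre.image _ continuous_inl.continuousOn).image _ pY.hom.hom.continuous.continuousOn
    exact cl_eq.2 hrel
  rw [← h] at hmem
  obtain ⟨a, -, ha⟩ := hmem
  obtain ⟨g, rfl⟩ := Quotient.exists_rep a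
  have hrel : Rel (gmap f'.hom.hom g) ((K', (yt, yf)) : G (J ⊕ ULift.{u} Bool)) := cl_eq.1 ha
  rcases hrel.2 with h1 | h1 | ⟨-, -, h1⟩
  · have h2 : (Sum.inl g.2.1 : J ⊕ ULift.{u} Bool) = yt := congrArg Prod.fst h1
    exact absurd h2 Sum.inl_ne_inr
  · rw [hrel.1] at h1
    have h2 : (Sum.inl (ULift.up 0) : J ⊕ ULift.{u} Bool) = Sum.inl (ULift.up 1) :=
      h1 ⟨ULift.up 0, mem_univ _, rfl⟩ ⟨ULift.up 1, mem_univ _, rfl⟩
    have h3 : (0 : unitInterval) = 1 := congrArg ULift.down (Sum.inl_injective h2)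
    exact zero_ne_one h3
  · have h2 : (true : Bool) = false := congrArg ULift.down (Sum.inr_injective h1)
    cases h2

end Pool.Agent.MP_6bfe6b_gt
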